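import Mathlib

/-!
# The Scarf complex of a power of an extremal ideal need not support a resolution

For all `q ≥ 6` and `r ≥ 5` and every field `k`, the Scarf complex of `E_q ^ r` does not support a
free resolution of `E_q ^ r`.
-/

namespace Pool.Agent.Results.MP_0a8151_al.NotScarf

open Finset MvPolynomial

section general

variable {ι V : Type*} [LinearOrder ι] (k : Type*) [Field k] (m : ι → V →₀ ℕ)

/-- The exponent vector of the least common multiple of the monomials `x ^ (m i)`, `i ∈ σ`: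
the label of the face `σ` of the Taylor simplex. -/
noncomputable def lab (σ : Finset ι) : V →₀ ℕ := σ.sup m

/-- The faces of the Scarf complex: the nonempty `σ` whose label is not the label of any other
face of the Taylor simplex. -/
def Scarf : Set (Finset ι) :=
  {σ | σ.Nonempty ∧ ∀ τ : Finset ι, τ.Nonempty → τ ≠ σ → lab m τ ≠ lab m σ}

/-- The simplicial sign of the vertex `v` in the face `σ`. -/
def sgn (σ : Finset ι) (v : ι) : ℤ := (-1) ^ (σ.filter (fun u => u < v)).card

/-- The homogenized simplicial differential on the free module with basis `e_σ`: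
`e_σ ↦ ∑_{v ∈ σ} ± x ^ (lab σ - lab (σ \ v)) e_(σ \ v)`.  On one-element faces it is
`e_{v} ↦ x ^ (m v) e_∅`, that is, the augmentation. -/
noncomputable def D : (Finset ι →₀ MvPolynomial V k) →ₗ[MvPolynomial V k]
    (Finset ι →₀ MvPolynomial V k) :=
  Finsupp.linearCombination (MvPolynomial V k) fun σ => ∑ v ∈ σ,
    Finsupp.single (σ.erase v) (monomial (lab m σ - lab m (σ.erase v)) ((sgn σ v : ℤ) : k))

/-- The `n`-chains of `X`: the free module on the faces of `X` with `n + 1` vertices. -/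
noncomputable def chains (X : Set (Finset ι)) (n : ℕ) :
    Submodule (MvPolynomial V k) (Finset ι →₀ MvPolynomial V k) :=
  Finsupp.supported _ _ {σ | σ ∈ X ∧ σ.card = n + 1}

/-- The labelled simplicial complex `X` supports a free resolution of the ideal generated by the
monomials `x ^ (m i)`: the homogenized chain complex
`⋯ → F_2 → F_1 → F_0 → (x ^ (m i)) → 0` of `X` is exact. -/
def SupportsResolution (X : Set (Finset ι)) : Prop :=
  ∀ n : ℕ, ∀ z ∈ chains (V := V) k X n, D k m z = 0 →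
    ∃ w ∈ chains (V := V) k X (n + 1), D k m w = z

variable {m}

theorem lab_apply (σ : Finset ι) (A : V) : lab m σ A = σ.sup fun v => m v A := by
  classical
  unfold lab
  induction σ using Finset.induction_on with
  | empty => simp [bot_eq_zero]
  | insert a s ha ih => simp [Finset.sup_insert, Finsupp.sup_apply, ih]

omit [LinearOrder ι] in
theorem le_lab {σ : Finset ι} {v : ι} (h : v ∈ σ) : m v ≤ lab m σ := Finset.le_sup h

omit [LinearOrder ι] in
theorem lab_mono {σ τ : Finset ι} (h : σ ⊆ τ) : lab m σ ≤ lab m τ := Finset.sup_mono h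

theorem lab_insert (σ : Finset ι) (v : ι) : lab m (insert v σ) = m v ⊔ lab m σ := by
  unfold lab
  rw [Finset.sup_insert]

theorem D_single (σ : Finset ι) (c : MvPolynomial V k) :
    D k m (Finsupp.single σ c) = ∑ v ∈ σ,
      Finsupp.single (σ.erase v)
        (c * monomial (lab m σ - lab m (σ.erase v)) ((sgn σ v : ℤ) : k)) := by
  unfold D
  rw [Finsupp.linearCombination_single, Finset.smul_sum]
  refine Finset.sum_congr rfl fun v _ => ?_
  rw [Finsupp.smul_single, smul_eq_mul]

theorem sgn_mul (σ : Finset ι) {v w : ι} (hv : v ∈ σ) (hw : w ∈ σ) (h : v ≠ w) :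
    sgn σ v * sgn (σ.erase v) w = -(sgn σ w * sgn (σ.erase w) v) := by
  wlog hlt : v < w generalizing v w
  · have := this hw hv h.symm (lt_of_le_of_ne (not_lt.1 hlt) h.symm)
    rw [this, neg_neg]
  have h1 : ((σ.erase v).filter fun u => u < w).card + 1 = (σ.filter fun u => u < w).card := by
    have : (σ.filter fun u => u < w) = insert v ((σ.erase v).filter fun u => u < w) := by
      ext u
      simp only [Finset.mem_filter, Finset.mem_insert, Finset.mem_erase]
      constructor
      · rintro ⟨h1, h2⟩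
        by_cases hu : u = v
        · exact Or.inl hu
        · exact Or.inr ⟨⟨hu, h1⟩, h2⟩
      · rintro (rfl | ⟨⟨_, h1⟩, h2⟩)
        · exact ⟨hv, hlt⟩
        · exact ⟨h1, h2⟩
    rw [this, Finset.card_insert_of_notMem (by simp)]
  have h2 : ((σ.erase w).filter fun u => u < v) = (σ.filter fun u => u < v) := by
    ext u
    simp only [Finset.mem_filter, Finset.mem_erase]
    constructor
    · rintro ⟨⟨_, h1⟩, h2⟩; exact ⟨h1, h2⟩
    · rintro ⟨h1, h2⟩; exact ⟨⟨(h2.trans hlt).ne, h1⟩, h2⟩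
  unfold sgn
  rw [h2, ← h1, pow_succ]
  ring

theorem D_D_single (σ : Finset ι) (c : MvPolynomial V k) :
    D k m (D k m (Finsupp.single σ c)) = 0 := by
  rw [D_single, map_sum]
  simp_rw [D_single]
  rw [Finset.sum_sigma']
  refine Finset.sum_involution (fun x _ => ⟨x.2, x.1⟩) ?_ ?_ ?_ ?_
  · rintro ⟨v, w⟩ hx
    simp only [Finset.mem_sigma, Finset.mem_erase] at hx
    obtain ⟨hv, hwv, hw⟩ := hx
    simp only
    rw [Finset.erase_right_comm (a := w) (b := v), ← Finsupp.single_add]
    have hm : ∀ a b : ι, 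
        monomial (lab m σ - lab m (σ.erase a)) ((sgn σ a : ℤ) : k) *
        monomial (lab m (σ.erase a) - lab m ((σ.erase a).erase b)) ((sgn (σ.erase a) b : ℤ) : k) =
        monomial (lab m σ - lab m ((σ.erase a).erase b))
          (((sgn σ a * sgn (σ.erase a) b : ℤ)) : k) := by
      intro a b
      have h1 : lab m (σ.erase a) ≤ lab m σ := lab_mono (Finset.erase_subset _ _)
      have h2 : lab m ((σ.erase a).erase b) ≤ lab m (σ.erase a) :=
        lab_mono (Finset.erase_subset _ _)
      have h3 : (lab m σ - lab m (σ.erase a)) +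
          (lab m (σ.erase a) - lab m ((σ.erase a).erase b)) =
          lab m σ - lab m ((σ.erase a).erase b) := by
        ext A
        have h1' := h1 A
        have h2' := h2 A
        simp only [Finsupp.add_apply, Finsupp.tsub_apply]
        omega
      rw [monomial_mul, h3]
      push_cast
      rfl
    rw [mul_assoc, hm, mul_assoc]
    have e1 := hm w v
    rw [Finset.erase_right_comm (a := w) (b := v)] at e1
    rw [e1, ← mul_add, ← (monomial _).map_add, ← Int.cast_add, sgn_mul σ hv hw (Ne.symm hwv)]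
    simp
  · rintro ⟨v, w⟩ hx _ h
    simp only [Finset.mem_sigma, Finset.mem_erase] at hx
    have : w = v := by
      have := congrArg Sigma.fst h
      simpa using this
    exact hx.2.1 this
  · rintro ⟨v, w⟩ hx
    simp only [Finset.mem_sigma, Finset.mem_erase] at hx ⊢
    exact ⟨hx.2.2, Ne.symm hx.2.1, hx.1⟩
  · rintro ⟨v, w⟩ _
    rfl

theorem notMem_scarf {σ : Finset ι} {v : ι} (hσ : σ.Nonempty) (hv : v ∉ σ) (h : m v ≤ lab m σ) :
    σ ∉ Scarf m ∧ insert v σ ∉ Scarf m := by
  have e : lab m (insert v σ) = lab m σ := by rw [lab_insert, sup_eq_right.2 h]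
  have ne : insert v σ ≠ σ := fun h' => hv (h' ▸ Finset.mem_insert_self v σ)
  constructor
  · rintro ⟨_, h2⟩
    exact h2 (insert v σ) (Finset.insert_nonempty _ _) ne e
  · rintro ⟨_, h2⟩
    exact h2 σ hσ ne.symm e.symm

end general

section core

variable {ι V : Type*} [LinearOrder ι] (k : Type*) [Field k] {m : ι → V →₀ ℕ}

/-- Six triangles on five vertices. -/
def tri : Finset (Finset (Fin 5)) :=
  {{0, 1, 2}, {0, 1, 4}, {0, 2, 4}, {1, 2, 3}, {1, 3, 4}, {2, 3, 4}}

theorem tri_nonempty : ∀ t ∈ tri, t.Nonempty := by decide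

theorem tri_card : ∀ t ∈ tri, t.card = 3 := by decide

theorem tri_mem_scarf (g : Fin 5 ↪ ι)
    (H1 : ∀ v, m v ≤ lab m (univ.map g) → ∃ j, v = g j)
    (H2 : ∀ t ∈ tri, ∀ j : Fin 5, ∃ A : V, ∀ w ∈ t, w ≠ j → m (g w) A < m (g j) A)
    {t : Finset (Fin 5)} (ht : t ∈ tri) : t.map g ∈ Scarf m := by
  have hne := tri_nonempty t ht
  refine ⟨by simpa using hne, fun τ hτ hne' heq => hne' ?_⟩
  have hsub : ∀ v ∈ τ, ∃ j ∈ t, v = g j := by
    intro v hv
    have hle : m v ≤ lab m (t.map g) := heq ▸ le_lab hv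
    obtain ⟨j, rfl⟩ := H1 v (hle.trans (lab_mono (Finset.map_subset_map.2 (subset_univ _))))
    by_contra hcon
    have hjt : j ∉ t := fun h => hcon ⟨j, h, rfl⟩
    obtain ⟨A, hA⟩ := H2 t ht j
    have h1 := hle A
    rw [lab_apply, Finset.sup_map] at h1
    obtain ⟨w, hw, hmax⟩ := Finset.exists_mem_eq_sup t hne ((fun v => m v A) ∘ g)
    rw [hmax] at h1
    have h2 := hA w hw (ne_of_mem_of_not_mem hw hjt)
    simp only [Function.comp_apply] at h1
    omega
  refine Finset.Subset.antisymm ?_ ?_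
  · intro v hv
    obtain ⟨j, hj, rfl⟩ := hsub v hv
    simpa using hj
  · intro v hv
    obtain ⟨j, hj, rfl⟩ := Finset.mem_map.1 hv
    by_contra hjτ
    obtain ⟨A, hA⟩ := H2 t ht j
    have h1 : m (g j) A ≤ lab m τ A := heq ▸ (le_lab (Finset.mem_map_of_mem g hj)) A
    rw [lab_apply] at h1
    obtain ⟨v, hv, hmax⟩ := Finset.exists_mem_eq_sup τ hτ (fun v => m v A)
    rw [hmax] at h1
    obtain ⟨w, hw, rfl⟩ := hsub v hv
    have hwj : w ≠ j := fun h => hjτ (h ▸ hv)
    have h2 := hA w hw hwj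
    omega

theorem D_face (g : Fin 5 ↪ ι) (T : Finset (Fin 5)) (c : k) :
    D k m (Finsupp.single (T.map g) (monomial (lab m (univ.map g) - lab m (T.map g)) c)) =
      ∑ j ∈ T, Finsupp.single ((T.erase j).map g)
        (monomial (lab m (univ.map g) - lab m ((T.erase j).map g))
          (c * ((sgn (T.map g) (g j) : ℤ) : k))) := by
  rw [D_single, Finset.sum_map]
  refine Finset.sum_congr rfl fun j _ => ?_
  rw [← Finset.map_erase, monomial_mul]
  have h1 : lab m (T.map g) ≤ lab m (univ.map g) :=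
    lab_mono (Finset.map_subset_map.2 (subset_univ _))
  have h2 : lab m ((T.erase j).map g) ≤ lab m (T.map g) :=
    lab_mono (Finset.map_subset_map.2 (Finset.erase_subset _ _))
  have h3 : (lab m (univ.map g) - lab m (T.map g)) +
      (lab m (T.map g) - lab m ((T.erase j).map g)) =
      lab m (univ.map g) - lab m ((T.erase j).map g) := by
    ext A
    have h1' := h1 A
    have h2' := h2 A
    simp only [Finsupp.add_apply, Finsupp.tsub_apply]
    omega
  rw [h3]

theorem sgn_sq (σ : Finset ι) (v : ι) : sgn σ v * sgn σ v = 1 := by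
  unfold sgn
  rw [← mul_pow]
  simp

theorem sgn_ne (σ : Finset ι) (v : ι) : ((sgn σ v : ℤ) : k) ≠ 0 := by
  intro h
  have h1 : ((sgn σ v * sgn σ v : ℤ) : k) = 1 := by rw [sgn_sq]; simp
  rw [Int.cast_mul, h, zero_mul] at h1
  exact zero_ne_one h1

theorem D_D (y : Finset ι →₀ MvPolynomial V k) : D k m (D k m y) = 0 := by
  induction y using Finsupp.induction_linear with
  | zero => simp
  | add f g hf hg => simp [map_add, hf, hg]
  | single σ c => exact D_D_single k σ c

theorem not_supports (g : Fin 5 ↪ ι)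
    (H1 : ∀ v, m v ≤ lab m (univ.map g) → ∃ j, v = g j)
    (H2 : ∀ t ∈ tri, ∀ j : Fin 5, ∃ A : V, ∀ w ∈ t, w ≠ j → m (g w) A < m (g j) A)
    (H3 : m (g 2) ≤ lab m (({0, 1, 3} : Finset (Fin 5)).map g))
    (H4 : m (g 3) ≤ lab m (({0, 1, 2, 4} : Finset (Fin 5)).map g)) :
    ¬ SupportsResolution k m (Scarf m) := by
  intro S
  set h := lab m (univ.map g) with hh
  set T1 : Finset (Fin 5) := {0, 1, 2, 4} with hT1
  set T2 : Finset (Fin 5) := {1, 2, 3, 4} with hT2
  set s1 : k := ((sgn (T1.map g) (g 0) : ℤ) : k) with hs1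
  set s2 : k := ((sgn (T2.map g) (g 3) : ℤ) : k) with hs2
  have hs2sq : s2 * s2 = 1 := by
    rw [hs2, ← Int.cast_mul, sgn_sq]; simp
  set y1 : Finset ι →₀ MvPolynomial V k :=
    Finsupp.single (T1.map g) (monomial (h - lab m (T1.map g)) 1) with hy1
  set y2 : Finset ι →₀ MvPolynomial V k :=
    Finsupp.single (T2.map g) (monomial (h - lab m (T2.map g)) (-(s1 * s2))) with hy2
  set R : Finset (Fin 5) → k → Fin 5 → (Finset ι →₀ MvPolynomial V k) := fun T c j =>
    Finsupp.single ((T.erase j).map g)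
        (monomial (h - lab m ((T.erase j).map g)) (c * ((sgn (T.map g) (g j) : ℤ) : k))) with hR
  have e1 : D k m y1 = R T1 1 0 + ∑ j ∈ ({1, 2, 4} : Finset (Fin 5)), R T1 1 j := by
    rw [hy1, hh, D_face]
    have : T1 = insert 0 {1, 2, 4} := by rw [hT1]
    conv_lhs => rw [this]
    rw [Finset.sum_insert (by decide), ← this]
  have e2 : D k m y2 = R T2 (-(s1 * s2)) 3 +
      ∑ j ∈ ({1, 2, 4} : Finset (Fin 5)), R T2 (-(s1 * s2)) j := by
    rw [hy2, hh, D_face]
    have : T2 = insert 3 {1, 2, 4} := by rw [hT2]; decide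
    conv_lhs => rw [this]
    rw [Finset.sum_insert (by decide), ← this]
  have e3 : R T1 1 0 + R T2 (-(s1 * s2)) 3 = 0 := by
    have a1 : T1.erase 0 = {1, 2, 4} := by rw [hT1]; decide
    have a2 : T2.erase 3 = {1, 2, 4} := by rw [hT2]; decide
    simp only [hR]
    rw [a1, a2, ← Finsupp.single_add, ← (monomial _).map_add, ← hs1, ← hs2]
    have : 1 * s1 + -(s1 * s2) * s2 = 0 := by
      rw [one_mul, neg_mul, mul_assoc, hs2sq, mul_one, add_neg_cancel]
    rw [this]
    simp
  have e4 : D k m (y1 + y2) = ∑ j ∈ ({1, 2, 4} : Finset (Fin 5)), R T1 1 j +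
      ∑ j ∈ ({1, 2, 4} : Finset (Fin 5)), R T2 (-(s1 * s2)) j := by
    rw [map_add, e1, e2]
    calc _ = (R T1 1 0 + R T2 (-(s1 * s2)) 3) + (∑ j ∈ ({1, 2, 4} : Finset (Fin 5)), R T1 1 j +
      ∑ j ∈ ({1, 2, 4} : Finset (Fin 5)), R T2 (-(s1 * s2)) j) := by abel
      _ = _ := by rw [e3, zero_add]
  have hmem : D k m (y1 + y2) ∈ chains (V := V) k (Scarf m) 2 := by
    rw [e4]
    refine Submodule.add_mem _ (Submodule.sum_mem _ fun j hj => ?_)
      (Submodule.sum_mem _ fun j hj => ?_)
    · have ht : T1.erase j ∈ tri := by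
        have : ∀ j ∈ ({1, 2, 4} : Finset (Fin 5)), ({0, 1, 2, 4} : Finset (Fin 5)).erase j ∈ tri := by
          decide
        exact this j hj
      refine Finsupp.single_mem_supported _ _ ⟨tri_mem_scarf g H1 H2 ht, ?_⟩
      rw [Finset.card_map, tri_card _ ht]
    · have ht : T2.erase j ∈ tri := by
        have : ∀ j ∈ ({1, 2, 4} : Finset (Fin 5)), ({1, 2, 3, 4} : Finset (Fin 5)).erase j ∈ tri := by
          decide
        exact this j hj
      refine Finsupp.single_mem_supported _ _ ⟨tri_mem_scarf g H1 H2 ht, ?_⟩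
      rw [Finset.card_map, tri_card _ ht]
  obtain ⟨w, hw, hDw⟩ := S 2 _ hmem (D_D k _)
  set G : Finset ι := ({0, 1, 2} : Finset (Fin 5)).map g with hG
  set e : V →₀ ℕ := h - lab m G with he
  -- the coefficient of the cycle
  have c1 : coeff e ((D k m (y1 + y2)) G) = ((sgn (T1.map g) (g 4) : ℤ) : k) := by
    have : DecidableEq V := Classical.decEq V
    rw [e4, Finsupp.add_apply, Finsupp.finsetSum_apply, Finsupp.finsetSum_apply]
    have z2 : ∑ j ∈ ({1, 2, 4} : Finset (Fin 5)), (R T2 (-(s1 * s2)) j) G = 0 := by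
      refine Finset.sum_eq_zero fun j hj => ?_
      simp only [hR]
      rw [Finsupp.single_apply, if_neg]
      rw [hG, Finset.map_inj]
      have : ∀ j ∈ ({1, 2, 4} : Finset (Fin 5)),
        ({1, 2, 3, 4} : Finset (Fin 5)).erase j ≠ {0, 1, 2} := by decide
      exact this j hj
    have z1 : ∑ j ∈ ({1, 2, 4} : Finset (Fin 5)), (R T1 1 j) G = (R T1 1 4) G := by
      refine Finset.sum_eq_single_of_mem 4 (by decide) fun j hj hj4 => ?_
      simp only [hR]
      rw [Finsupp.single_apply, if_neg]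
      rw [hG, Finset.map_inj]
      have : ∀ j ∈ ({1, 2, 4} : Finset (Fin 5)), j ≠ 4 →
        ({0, 1, 2, 4} : Finset (Fin 5)).erase j ≠ {0, 1, 2} := by decide
      exact this j hj hj4
    rw [z1, z2, add_zero]
    have a4 : T1.erase 4 = {0, 1, 2} := by rw [hT1]; decide
    simp only [hR]
    rw [a4, ← hG, Finsupp.single_eq_same, ← he, coeff_monomial, if_pos rfl, one_mul]
  have key : ∀ σ ∈ Scarf m, σ.card = 4 → ∀ c : MvPolynomial V k,
      coeff e ((D k m (Finsupp.single σ c)) G) = 0 := by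
    intro σ hσ hcard c
    rw [D_single, Finsupp.finsetSum_apply, coeff_sum]
    refine Finset.sum_eq_zero fun v hv => ?_
    rw [Finsupp.single_apply]
    split_ifs with heq
    · rw [coeff_mul_monomial', if_neg]
      intro hle
      rw [heq] at hle
      have hGh : lab m G ≤ h := lab_mono (Finset.map_subset_map.2 (subset_univ _))
      have hGσ : lab m G ≤ lab m σ := heq ▸ lab_mono (Finset.erase_subset _ _)
      have hσh : lab m σ ≤ h := by
        intro A
        have b1 := hle A
        have b2 := hGh A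
        have b3 := hGσ A
        rw [he, Finsupp.tsub_apply, Finsupp.tsub_apply] at b1
        omega
      obtain ⟨j, rfl⟩ := H1 v ((le_lab hv).trans hσh)
      have hjG : g j ∉ G := heq ▸ Finset.notMem_erase _ _
      have hj : j ∉ ({0, 1, 2} : Finset (Fin 5)) := fun hj => hjG (Finset.mem_map_of_mem g hj)
      have hσ' : σ = (insert j ({0, 1, 2} : Finset (Fin 5))).map g := by
        have e6 := Finset.map_insert g j ({0, 1, 2} : Finset (Fin 5))
        rw [e6, ← hG, ← heq, Finset.insert_erase hv]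
      have hj34 : j = 3 ∨ j = 4 := by
        have : ∀ j : Fin 5, j ∉ ({0, 1, 2} : Finset (Fin 5)) → j = 3 ∨ j = 4 := by decide
        exact this j hj
      rcases hj34 with rfl | rfl
      · have := (notMem_scarf (σ := ({0, 1, 3} : Finset (Fin 5)).map g) (v := g 2)
          (by simp) (by simp) H3).2
        refine this ?_
        rw [hσ'] at hσ
        have e6 := Finset.map_insert g 2 ({0, 1, 3} : Finset (Fin 5))
        have e5 : (insert 2 ({0, 1, 3} : Finset (Fin 5))) = insert 3 {0, 1, 2} := by decide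
        rw [e5] at e6
        rw [← e6]
        exact hσ
      · have := (notMem_scarf (σ := ({0, 1, 2, 4} : Finset (Fin 5)).map g) (v := g 3)
          (by simp) (by simp) H4).1
        refine this ?_
        rw [hσ'] at hσ
        have e5 : (insert 4 ({0, 1, 2} : Finset (Fin 5))) = {0, 1, 2, 4} := by decide
        rw [e5] at hσ
        exact hσ
    · simp
  have c2 : coeff e ((D k m w) G) = 0 := by
    have hwsum : w = ∑ σ ∈ w.support, Finsupp.single σ (w σ) := (Finsupp.sum_single w).symm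
    rw [hwsum, map_sum, Finsupp.finsetSum_apply, coeff_sum]
    refine Finset.sum_eq_zero fun σ hσ => ?_
    have hm : σ ∈ {σ | σ ∈ Scarf m ∧ σ.card = 3 + 1} :=
      (Finsupp.mem_supported _ _).1 hw hσ
    exact key σ hm.1 hm.2 _
  rw [hDw, c1] at c2
  exact sgn_ne k _ _ c2

end core

section concrete

/-- The index set of the minimal generators `ε ^ a` of `E_q ^ r`: the `a ∈ ℕ ^ q` with
`a_1 + ⋯ + a_q = r`. -/
structure Gen (q r : ℕ) where
  /-- the exponents -/
  a : Fin q → ℕ
  /-- they add up to `r` -/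
  sum_eq : ∑ i, a i = r

/-- The variables `x_A` of `S_q`: the nonempty subsets `A` of `{1, …, q}`. -/
abbrev Var (q : ℕ) := {A : Finset (Fin q) // A.Nonempty}

/-- The generator `ε_i = ∏_{A ∋ i} x_A` of the extremal ideal `E_q`. -/
noncomputable def eps (k : Type*) [Field k] (q : ℕ) (i : Fin q) : MvPolynomial (Var q) k :=
  ∏ A : Var q, if i ∈ A.1 then X A else 1

/-- The exponent vector of `ε ^ a`: the exponent of `x_A` is `∑_{i ∈ A} a_i`. -/
noncomputable def expo (q r : ℕ) (v : Gen q r) : Var q →₀ ℕ :=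
  Finsupp.equivFunOnFinite.symm fun A => ∑ i ∈ A.1, v.a i

theorem expo_apply {q r : ℕ} (v : Gen q r) (A : Var q) : expo q r v A = ∑ i ∈ A.1, v.a i := rfl

/-- Five points. -/
def p : Fin 5 → Fin 6 → ℕ :=
  ![![0, 1, 0, 1, 0, 3], ![0, 1, 0, 1, 1, 2], ![1, 1, 0, 1, 0, 2], ![1, 1, 0, 1, 1, 1],
    ![2, 0, 1, 0, 2, 0]]

/-- The linear constraints which cut out the five points. -/
def ok (a b c d e f : ℕ) : Bool :=
  decide (a + b + c + d + e + f = 5) && decide (a + c + f ≤ 3) && decide (c + e + f ≤ 3) &&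
  decide (b + c ≤ 1) && decide (a + d ≤ 2) && decide (a + b + e + f ≤ 4) && decide (d + e ≤ 2) &&
  decide (c + d ≤ 1) && decide (a + d + e + f ≤ 4)

/-- Comparison with one of the five points. -/
def eqp (j : Fin 5) (a b c d e f : ℕ) : Bool :=
  decide (p j 0 = a) && decide (p j 1 = b) && decide (p j 2 = c) && decide (p j 3 = d) &&
  decide (p j 4 = e) && decide (p j 5 = f)

theorem C1 : ∀ (a : Fin 3) (b c d : Fin 2) (e : Fin 3) (f : Fin 4), ok a b c d e f = true →
    ∃ j : Fin 5, eqp j a b c d e f = true := by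
  decide +kernel

theorem C2 : ∀ t ∈ tri, ∀ j : Fin 5, ∃ B : Finset (Fin 6), B.Nonempty ∧
    ∀ w ∈ t, w ≠ j → ∑ b ∈ B, p w b < ∑ b ∈ B, p j b := by
  decide +kernel

theorem C3 : ∀ B : Finset (Fin 6), ∃ w ∈ ({0, 1, 3} : Finset (Fin 5)),
    ∑ b ∈ B, p 2 b ≤ ∑ b ∈ B, p w b := by
  decide +kernel

theorem C4 : ∀ B : Finset (Fin 6), ∃ w ∈ ({0, 1, 2, 4} : Finset (Fin 5)),
    ∑ b ∈ B, p 3 b ≤ ∑ b ∈ B, p w b := by
  decide +kernel

/-- The trace of a subset of `Fin q` on `Fin 6`. -/
def res {q : ℕ} (hq : 6 ≤ q) (A : Finset (Fin q)) : Finset (Fin 6) :=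
  univ.filter fun b => Fin.castLE hq b ∈ A

theorem sum_ext {q : ℕ} (hq : 6 ≤ q) (A : Finset (Fin q)) (u : Fin 6 → ℕ) :
    ∑ i ∈ A, (if h : (i : ℕ) < 6 then u ⟨i, h⟩ else 0) = ∑ b ∈ res hq A, u b := by
  have h1 : ∑ b ∈ res hq A, u b =
      ∑ i ∈ (res hq A).map (Fin.castLEEmb hq), (if h : (i : ℕ) < 6 then u ⟨i, h⟩ else 0) := by
    rw [Finset.sum_map]
    refine Finset.sum_congr rfl fun b _ => ?_
    have : ((Fin.castLEEmb hq b : Fin q) : ℕ) < 6 := b.2
    rw [dif_pos this]
    rfl
  rw [h1]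
  symm
  refine Finset.sum_subset ?_ ?_
  · intro i hi
    obtain ⟨b, hb, rfl⟩ := Finset.mem_map.1 hi
    exact (Finset.mem_filter.1 hb).2
  · intro i hi hni
    by_cases h : (i : ℕ) < 6
    · exact absurd (Finset.mem_map.2 ⟨(⟨(i : ℕ), h⟩ : Fin 6),
        Finset.mem_filter.2 ⟨mem_univ _, hi⟩, rfl⟩) hni
    · rw [dif_neg h]

theorem sum_shift (B : Finset (Fin 6)) (u : Fin 6 → ℕ) (s : ℕ) :
    ∑ b ∈ B, (u b + if b = 5 then s else 0) = ∑ b ∈ B, u b + if 5 ∈ B then s else 0 := by
  rw [Finset.sum_add_distrib, Finset.sum_ite_eq']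

/-- The five generators. -/
def gen {q r : ℕ} (hq : 6 ≤ q) (hr : 5 ≤ r) (j : Fin 5) : Gen q r where
  a := fun i => if h : (i : ℕ) < 6 then
    p j ⟨i, h⟩ + (if (⟨i, h⟩ : Fin 6) = 5 then r - 5 else 0) else 0
  sum_eq := by
    rw [sum_ext hq univ fun b => p j b + if b = 5 then r - 5 else 0, sum_shift]
    have h1 : res hq univ = univ := by ext b; simp [res]
    have h2 : ∀ j : Fin 5, ∑ b, p j b = 5 := by decide
    rw [h1, h2 j, if_pos (mem_univ _)]
    omega

theorem expo_gen {q r : ℕ} (hq : 6 ≤ q) (hr : 5 ≤ r) (j : Fin 5) (A : Var q) :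
    expo q r (gen hq hr j) A = ∑ b ∈ res hq A.1, p j b + if 5 ∈ res hq A.1 then r - 5 else 0 := by
  rw [expo_apply]
  exact (sum_ext hq A.1 fun b => p j b + if b = 5 then r - 5 else 0).trans (sum_shift _ _ _)

/-- A subset of `Fin 6` as a variable. -/
def up {q : ℕ} (hq : 6 ≤ q) (B : Finset (Fin 6)) (hB : B.Nonempty) : Var q :=
  ⟨B.map (Fin.castLEEmb hq), by simpa using hB⟩

theorem res_up {q : ℕ} (hq : 6 ≤ q) (B : Finset (Fin 6)) (hB : B.Nonempty) :
    res hq (up hq B hB).1 = B := by
  ext b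
  simp only [res, up, Finset.mem_filter, mem_univ, true_and, Finset.mem_map]
  constructor
  · rintro ⟨c, hc, h⟩
    have : c = b := by
      have := congrArg Fin.val h
      simpa [Fin.ext_iff] using this
    exact this ▸ hc
  · intro h
    exact ⟨b, h, rfl⟩

theorem expo_gen_up {q r : ℕ} (hq : 6 ≤ q) (hr : 5 ≤ r) (j : Fin 5) (B : Finset (Fin 6))
    (hB : B.Nonempty) :
    expo q r (gen hq hr j) (up hq B hB) = ∑ b ∈ B, p j b + if 5 ∈ B then r - 5 else 0 := by
  rw [expo_gen, res_up]

theorem gen_injective {q r : ℕ} (hq : 6 ≤ q) (hr : 5 ≤ r) :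
    Function.Injective (gen hq hr : Fin 5 → Gen q r) := by
  intro i j hij
  by_contra hne
  have key : ∀ i j : Fin 5, i ≠ j → ∃ b : Fin 6, p i b ≠ p j b := by decide
  obtain ⟨b, hb⟩ := key i j hne
  have h1 := expo_gen_up hq hr i {b} (by simp)
  have h2 := expo_gen_up hq hr j {b} (by simp)
  rw [hij, h2] at h1
  simp only [Finset.sum_singleton] at h1
  omega

theorem H1 {q r : ℕ} (hq : 6 ≤ q) (hr : 5 ≤ r) [LinearOrder (Gen q r)] (v : Gen q r)
    (hv : expo q r v ≤ lab (expo q r) (univ.map ⟨gen hq hr, gen_injective hq hr⟩)) :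
    ∃ j, v = gen hq hr j := by
  have hA : ∀ A : Var q, ∃ j, ∑ i ∈ A.1, v.a i ≤
      ∑ b ∈ res hq A.1, p j b + if 5 ∈ res hq A.1 then r - 5 else 0 := by
    intro A
    have h1 := hv A
    rw [lab_apply, Finset.sup_map] at h1
    obtain ⟨j, _, hmax⟩ := Finset.exists_mem_eq_sup (univ : Finset (Fin 5)) univ_nonempty
      ((fun v => expo q r v A) ∘ (⟨gen hq hr, gen_injective hq hr⟩ : Fin 5 ↪ Gen q r))
    rw [hmax] at h1
    refine ⟨j, ?_⟩
    rw [← expo_gen hq hr]
    exact h1
  set u : Fin 6 → ℕ := fun b => v.a (Fin.castLE hq b) with hu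
  have hout : ∀ i : Fin q, ¬ (i : ℕ) < 6 → v.a i = 0 := by
    intro i hi
    obtain ⟨j, hj⟩ := hA ⟨{i}, by simp⟩
    have h1 : res hq ({i} : Finset (Fin q)) = ∅ := by
      ext b
      simp only [res, Finset.mem_filter, mem_univ, true_and, Finset.mem_singleton,
        Finset.notMem_empty, iff_false]
      rintro rfl
      exact hi b.2
    simp only [h1] at hj
    simpa using hj
  have hva : ∀ i : Fin q, v.a i = if h : (i : ℕ) < 6 then u ⟨i, h⟩ else 0 := by
    intro i
    split_ifs with h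
    · rfl
    · exact hout i h
  have hsum : u 0 + u 1 + u 2 + u 3 + u 4 + u 5 = r := by
    have h1 := v.sum_eq
    rw [Finset.sum_congr rfl fun i _ => hva i, sum_ext hq univ u] at h1
    have h2 : res hq univ = univ := by ext b; simp [res]
    rw [h2, Fin.sum_univ_six] at h1
    exact h1
  have hB : ∀ (B : Finset (Fin 6)) (N : ℕ), B.Nonempty → (∀ j, ∑ b ∈ B, p j b ≤ N) →
      ∑ b ∈ B, u b ≤ N + if 5 ∈ B then r - 5 else 0 := by
    intro B N hne hN
    obtain ⟨j, hj⟩ := hA (up hq B hne)
    rw [res_up] at hj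
    have h1 : ∑ i ∈ (up hq B hne).1, v.a i = ∑ b ∈ B, u b := by
      rw [up, Finset.sum_map]
      rfl
    rw [h1] at hj
    have := hN j
    omega
  have b0 := hB {0} 2 (by decide) (by decide)
  have b1 := hB {1} 1 (by decide) (by decide)
  have b2 := hB {2} 1 (by decide) (by decide)
  have b3 := hB {3} 1 (by decide) (by decide)
  have b4 := hB {4} 2 (by decide) (by decide)
  have b5 := hB {5} 3 (by decide) (by decide)
  have b6 := hB {0, 1, 2, 3, 4} 5 (by decide) (by decide)
  have c1 := hB {0, 2, 5} 3 (by decide) (by decide)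
  have c2 := hB {2, 4, 5} 3 (by decide) (by decide)
  have c3 := hB {1, 2} 1 (by decide) (by decide)
  have c4 := hB {0, 3} 2 (by decide) (by decide)
  have c5 := hB {0, 1, 4, 5} 4 (by decide) (by decide)
  have c6 := hB {3, 4} 2 (by decide) (by decide)
  have c7 := hB {2, 3} 1 (by decide) (by decide)
  have c8 := hB {0, 3, 4, 5} 4 (by decide) (by decide)
  have hsum6 : ∀ B : Finset (Fin 6), ∑ b ∈ B, u b = (if 0 ∈ B then u 0 else 0) +
      (if 1 ∈ B then u 1 else 0) + (if 2 ∈ B then u 2 else 0) + (if 3 ∈ B then u 3 else 0) +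
      (if 4 ∈ B then u 4 else 0) + (if 5 ∈ B then u 5 else 0) := by
    intro B
    rw [← Fin.sum_univ_six fun b => if b ∈ B then u b else 0, Finset.sum_ite_mem,
      Finset.univ_inter]
  rw [hsum6] at b0 b1 b2 b3 b4 b5 b6 c1 c2 c3 c4 c5 c6 c7 c8
  simp +decide at b0 b1 b2 b3 b4 b5 b6 c1 c2 c3 c4 c5 c6 c7 c8
  obtain ⟨j, hj⟩ := C1 ⟨u 0, by omega⟩ ⟨u 1, by omega⟩ ⟨u 2, by omega⟩
    ⟨u 3, by omega⟩ ⟨u 4, by omega⟩ ⟨u 5 - (r - 5), by omega⟩ (by
      simp only [ok, Bool.and_eq_true, decide_eq_true_eq]; omega)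
  simp only [eqp, Bool.and_eq_true, decide_eq_true_eq] at hj
  obtain ⟨⟨⟨⟨⟨h0, h1⟩, h2⟩, h3⟩, h4⟩, h5⟩ := hj
  refine ⟨j, ?_⟩
  have hub : ∀ b : Fin 6, u b = p j b + if b = 5 then r - 5 else 0 := by
    intro b
    have : b = 0 ∨ b = 1 ∨ b = 2 ∨ b = 3 ∨ b = 4 ∨ b = 5 := by
      revert b; decide
    rcases this with rfl | rfl | rfl | rfl | rfl | rfl
    · rw [h0, if_neg (by decide)]; rfl
    · rw [h1, if_neg (by decide)]; rfl
    · rw [h2, if_neg (by decide)]; rfl
    · rw [h3, if_neg (by decide)]; rfl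
    · rw [h4, if_neg (by decide)]; rfl
    · rw [h5, if_pos rfl]; omega
  have hfin : v.a = (gen hq hr j).a := by
    funext i
    rw [hva i]
    show _ = if h : (i : ℕ) < 6 then
      p j ⟨i, h⟩ + (if (⟨i, h⟩ : Fin 6) = 5 then r - 5 else 0) else 0
    split_ifs with h h'
    · rw [hub, if_pos h']
    · rw [hub, if_neg h']
    · rfl
  cases v
  cases hg : gen hq hr j
  rw [hg] at hfin
  simp only at hfin
  subst hfin
  rfl

theorem main (k : Type*) [Field k] (q r : ℕ) (hq : 6 ≤ q) (hr : 5 ≤ r) [LinearOrder (Gen q r)] :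
    ¬ SupportsResolution k (expo q r) (Scarf (expo q r)) := by
  refine not_supports k ⟨gen hq hr, gen_injective hq hr⟩ (H1 hq hr) ?_ ?_ ?_
  · intro t ht j
    obtain ⟨B, hB, h⟩ := C2 t ht j
    refine ⟨up hq B hB, fun w hw hwj => ?_⟩
    show expo q r (gen hq hr w) _ < expo q r (gen hq hr j) _
    rw [expo_gen_up, expo_gen_up]
    have := h w hw hwj
    omega
  · intro A
    obtain ⟨w, hw, h⟩ := C3 (res hq A.1)
    refine le_trans ?_ (le_lab (m := expo q r) (Finset.mem_map_of_mem
      (⟨gen hq hr, gen_injective hq hr⟩ : Fin 5 ↪ Gen q r) hw) A)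
    show expo q r (gen hq hr 2) _ ≤ expo q r (gen hq hr w) _
    rw [expo_gen, expo_gen]
    omega
  · intro A
    obtain ⟨w, hw, h⟩ := C4 (res hq A.1)
    refine le_trans ?_ (le_lab (m := expo q r) (Finset.mem_map_of_mem
      (⟨gen hq hr, gen_injective hq hr⟩ : Fin 5 ↪ Gen q r) hw) A)
    show expo q r (gen hq hr 3) _ ≤ expo q r (gen hq hr w) _
    rw [expo_gen, expo_gen]
    omega

theorem monomial_expo (k : Type*) [Field k] (q r : ℕ) (v : Gen q r) :
    monomial (expo q r v) (1 : k) = ∏ i, eps k q i ^ v.a i := by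
  classical
  rw [monomial_eq, Finsupp.prod_fintype _ _ (by simp), C_1, one_mul]
  unfold eps
  simp_rw [← Finset.prod_pow]
  rw [Finset.prod_comm]
  refine Finset.prod_congr rfl fun A _ => ?_
  have h1 : ∀ i, ((if i ∈ A.1 then (X A : MvPolynomial (Var q) k) else 1) ^ v.a i) =
      if i ∈ A.1 then X A ^ v.a i else 1 := by
    intro i
    split_ifs <;> simp
  simp_rw [h1]
  rw [Finset.prod_ite_mem, Finset.univ_inter, Finset.prod_pow_eq_pow_sum, expo_apply]

theorem span_gens (k : Type*) [Field k] (q r : ℕ) :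
    (Ideal.span (Set.range (eps k q))) ^ r =
      Ideal.span (Set.range fun v : Gen q r => monomial (expo q r v) (1 : k)) := by
  classical
  simp_rw [monomial_expo]
  induction r with
  | zero =>
    rw [pow_zero, Ideal.one_eq_top]
    symm
    rw [Ideal.eq_top_iff_one]
    refine Ideal.subset_span ⟨⟨fun _ => 0, by simp⟩, by simp⟩
  | succ r ih =>
    rw [pow_succ, ih, Ideal.span_mul_span']
    congr 1
    ext x
    constructor
    · rintro ⟨_, ⟨v, rfl⟩, _, ⟨i, rfl⟩, rfl⟩
      refine ⟨⟨fun j => v.a j + if j = i then 1 else 0, ?_⟩, ?_⟩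
      · rw [Finset.sum_add_distrib, v.sum_eq, Finset.sum_ite_eq' univ i]
        simp
      · simp only [pow_add, Finset.prod_mul_distrib]
        congr 1
        rw [Finset.prod_eq_single i]
        · simp
        · intro j _ hj
          simp [hj]
        · simp
    · rintro ⟨v, rfl⟩
      have hpos : ∃ i, v.a i ≠ 0 := by
        by_contra hcon
        push Not at hcon
        have := v.sum_eq
        simp [hcon] at this
      obtain ⟨i, hi⟩ := hpos
      have e1 : ∀ j, v.a j = (v.a j - if j = i then 1 else 0) + if j = i then 1 else 0 := by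
        intro j
        split_ifs with h
        · subst h
          omega
        · simp
      refine ⟨_, ⟨⟨fun j => v.a j - if j = i then 1 else 0, ?_⟩, rfl⟩, _, ⟨i, rfl⟩, ?_⟩
      · have h1 := v.sum_eq
        rw [Finset.sum_congr rfl fun j _ => e1 j, Finset.sum_add_distrib,
          Finset.sum_ite_eq' univ i] at h1
        simp only [mem_univ, if_true] at h1
        omega
      · simp only
        conv_rhs => rw [Finset.prod_congr rfl fun j _ => by rw [e1 j]]
        simp only [pow_add, Finset.prod_mul_distrib]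
        congr 1
        symm
        rw [Finset.prod_eq_single i]
        · simp
        · intro j _ hj
          simp [hj]
        · simp

theorem gens_minimal (q r : ℕ) (v w : Gen q r) (h : expo q r v ≤ expo q r w) : v = w := by
  have h1 : ∀ i, v.a i ≤ w.a i := by
    intro i
    have := h ⟨{i}, by simp⟩
    rw [expo_apply, expo_apply] at this
    simpa using this
  have h2 : ∀ i, v.a i = w.a i := by
    have h3 : ∑ i, v.a i = ∑ i, w.a i := by rw [v.sum_eq, w.sum_eq]
    intro i
    exact (Finset.sum_eq_sum_iff_of_le fun i _ => h1 i).1 h3 i (mem_univ _)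
  obtain ⟨a, ha⟩ := v
  obtain ⟨b, hb⟩ := w
  have : a = b := funext h2
  subst this
  rfl

end concrete

/-- **Main theorem.** Let `k` be a field.  The vertices `Gen q r` of the Taylor simplex are the
minimal generators of `E_q ^ r` (first two clauses).  If `q ≥ 6` and `r ≥ 5`, then the Scarf
complex of `E_q ^ r` does not support a free resolution of `E_q ^ r`, whatever the numbering of
the generators. -/
theorem result (k : Type*) [Field k] (q r : ℕ) :
    (Ideal.span (Set.range (eps k q))) ^ r =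
      Ideal.span (Set.range fun v : Gen q r => monomial (expo q r v) (1 : k)) ∧
    (∀ v w : Gen q r, expo q r v ≤ expo q r w → v = w) ∧
    (6 ≤ q → 5 ≤ r → ∀ _ : LinearOrder (Gen q r),
      ¬ SupportsResolution k (expo q r) (Scarf (expo q r))) :=
  ⟨span_gens k q r, gens_minimal q r, fun hq hr _ => main k q r hq hr⟩

end Pool.Agent.Results.MP_0a8151_al.NotScarf
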